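import Pool.Agent.KS6_88.WH.Split

/-!
# MP_405c89_co: White's conjecture beyond elementary split matroids

White's conjecture is preserved by duality, direct sums, deletion, and parallel extension (so also by
contraction and series extension); hence it holds for every matroid generated by these operations
from the elementary split matroids, in particular for all direct sums of elementary split matroids.
-/

set_option autoImplicit false

open Set Matroid

namespace Pool.Agent.Results.MP_405c89_co.GeneratedClass

/-- A (finite) matroid is uniform: every set with as many elements as a base is a base. -/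
def Uniform {α : Type} (M : Matroid α) : Prop :=
  ∀ X Y : Set α, M.IsBase X → Y ⊆ M.E → Y.ncard = X.ncard → M.IsBase Y

/-- Elementary split: every rank-size set `S` is a base or meets some stressed set `A` (the
restriction to `A` and the contraction of `A` are uniform) in more than `r(A)` elements. -/
def ElementarySplit {α : Type} (M : Matroid α) : Prop :=
  ∀ B0 S : Set α, M.IsBase B0 → S ⊆ M.E → S.ncard = B0.ncard →
    (M.IsBase S ∨ ∃ A I : Set α, A ⊆ M.E ∧ Uniform (M.restrict A) ∧ Uniform (M.contract A) ∧
      M.IsBasis I A ∧ I.ncard < (S ∩ A).ncard)

/-- One symmetric exchange: `T'` arises from the tuple `T` by exchanging `a ∈ T i \ T j` with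
`b ∈ T j \ T i`, both new sets being bases. -/
def Exchange {α : Type} (M : Matroid α) {n : ℕ} (T T' : Fin n → Set α) : Prop :=
  ∃ (i j : Fin n) (a b : α), i ≠ j ∧ a ∈ T i ∧ a ∉ T j ∧ b ∈ T j ∧ b ∉ T i ∧
    T' i = insert b (T i \ {a}) ∧ T' j = insert a (T j \ {b}) ∧
    (∀ k, k ≠ i → k ≠ j → T' k = T k) ∧ M.IsBase (T' i) ∧ M.IsBase (T' j)

/-- White's conjecture for `M`: any two `n`-tuples of bases with the same multiset union (every `x`
lies in equally many members of both) are connected by symmetric exchanges, for every `n`. -/
def White {α : Type} (M : Matroid α) : Prop :=
  ∀ (n : ℕ) (B B' : Fin n → Set α), (∀ i, M.IsBase (B i)) → (∀ i, M.IsBase (B' i)) →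
    (∀ x, {i | x ∈ B i}.ncard = {i | x ∈ B' i}.ncard) →
    Relation.ReflTransGen (Exchange M) B B'

/-- The smallest class of finite matroids containing the elementary split matroids and closed under
duality, direct sums, and comaps along arbitrary maps `f` (the independent sets of `M.comap f` are the
sets on which `f` is injective and whose image is independent: deletion, parallel extension and
renaming; with duality also contraction and series extension). -/
inductive Generated : ∀ {α : Type}, Matroid α → Prop
  | split {α : Type} [Finite α] (M : Matroid α) : ElementarySplit M → Generated M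
  | dual {α : Type} (M : Matroid α) : Generated M → Generated M✶
  | sum {α β : Type} (M : Matroid α) (N : Matroid β) :
      Generated M → Generated N → Generated (M.sum N)
  | comap {α β : Type} [Finite α] (f : α → β) (M : Matroid β) :
      Generated M → Generated (M.comap f)

theorem white_split {α : Type} [Finite α] (M : Matroid α) (hM : ElementarySplit M) : White M :=
  Pool.Agent.KS6_88.WH.white_split M hM

theorem white_generated {α : Type} (M : Matroid α) (h : Generated M) : Finite α ∧ White M := by
  induction h with
  | split M hM => exact ⟨inferInstance, white_split M hM⟩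
  | dual M _ ih => exact ⟨ih.1, Pool.Agent.KS6_88.WH.white_dual ih.2⟩
  | sum M N _ _ ih1 ih2 =>
    have := ih1.1
    have := ih2.1
    exact ⟨inferInstance, Pool.Agent.KS6_88.WH.white_sum ih1.2 ih2.2⟩
  | comap f M _ ih =>
    have := ih.1
    exact ⟨inferInstance, Pool.Agent.KS6_88.WH.white_comap ih.2 f⟩

/-- **Main theorem.** (1) White's conjecture holds for every matroid of the generated class. (2) It is
preserved by duality, direct sums and comaps of finite matroids. (3) Q1: it holds for every
elementary split matroid, and for every direct sum of two elementary split matroids. -/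
theorem result :
    (∀ (α : Type) (M : Matroid α), Generated M → White M) ∧
    ((∀ (α : Type) (M : Matroid α), White M → White M✶) ∧
      (∀ (α β : Type) (M : Matroid α) (N : Matroid β), White M → White N → White (M.sum N)) ∧
      (∀ (α β : Type) [Finite α] [Finite β] (M : Matroid β) (f : α → β),
        White M → White (M.comap f))) ∧
    (∀ (α : Type) [Finite α] (M : Matroid α), ElementarySplit M → White M) ∧
    (∀ (α β : Type) [Finite α] [Finite β] (M : Matroid α) (N : Matroid β),
      ElementarySplit M → ElementarySplit N → White (M.sum N)) := by
  refine ⟨fun α M h => (white_generated M h).2, ⟨fun α M h => Pool.Agent.KS6_88.WH.white_dual h,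
    fun α β M N h1 h2 => Pool.Agent.KS6_88.WH.white_sum h1 h2,
    fun α β _ _ M f h => Pool.Agent.KS6_88.WH.white_comap h f⟩, fun α _ M h => white_split M h,
    fun α β _ _ M N h1 h2 => Pool.Agent.KS6_88.WH.white_sum (white_split M h1) (white_split N h2)⟩

end Pool.Agent.Results.MP_405c89_co.GeneratedClass
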